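import Mathlib
import Pool.Agent.Helper5.KZ.Stm
import Pool.Agent.helper444_cyc.Tree

/-!
# The sides of an edge of the Bass-Serre tree of an HNN extension, and convex hulls
-/

set_option autoImplicit false

namespace Pool.Agent.Helper36.KZ

open HNNExtension Pool.Agent.Helper270.Tree Pool.Agent.Helper270.HNN Pool.Agent.helper444_cyc
open Pool.Agent.Helper5.KZ

section

variable {B : Type} [Group B] {A₁ A₂ : Subgroup B} {φ : A₁ ≃* A₂}

/-- The side of the edge from `B` to `t B`. -/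
def side (φ : A₁ ≃* A₂) : Set (HNNExtension B A₁ A₂ φ) := {h | ¬ near 1 (vt h)}

theorem mem_side {g h : HNNExtension B A₁ A₂ φ} : g⁻¹ * h ∈ side φ ↔ ¬ near g (vt h) := by
  unfold side
  rw [Set.mem_ofPred_eq, ← near_smul g 1 (vt (g⁻¹ * h)), smul_vt, mul_one, mul_inv_cancel_left]

theorem not_mem_side {g h : HNNExtension B A₁ A₂ φ} : g⁻¹ * h ∉ side φ ↔ near g (vt h) := by
  rw [mem_side, not_not]

theorem vt_of (b : B) : (vt (of b) : Vert φ) = vt 1 := by
  have := vt_mul_of (φ := φ) 1 b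
  rwa [one_mul] at this

theorem out_dist {b : B} {h : HNNExtension B A₁ A₂ φ} (hb : (of b)⁻¹ * h ∈ side φ) :
    (graph φ).dist (vt h) (vt 1) = (graph φ).dist (vt h) (vt (of b * t)) + 1 := by
  have := not_near (mem_side.mp hb)
  rwa [vt_of] at this

theorem in_dist {b : B} {h : HNNExtension B A₁ A₂ φ} (hb : t * (of b)⁻¹ * h ∉ side φ) :
    (graph φ).dist (vt h) (vt 1) = (graph φ).dist (vt h) (vt (of b * t⁻¹)) + 1 := by
  have h1 : t * (of b)⁻¹ * h = (of b * t⁻¹)⁻¹ * h := by group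
  rw [h1] at hb
  have := near' (not_mem_side.mp hb)
  rwa [inv_mul_cancel_right, vt_of] at this

theorem adj_out (b : B) : (graph φ).Adj (vt (of b * t)) (vt 1) := by
  have := (adj_vt (φ := φ) (of b)).symm
  rwa [vt_of] at this

theorem adj_in (b : B) : (graph φ).Adj (vt (of b * t⁻¹)) (vt 1) := by
  have := adj_vt (φ := φ) (of b * t⁻¹)
  rwa [inv_mul_cancel_right, vt_of] at this

theorem of_of_dist {b : B} {h : HNNExtension B A₁ A₂ φ}
    (hb : (graph φ).dist (vt h) (vt 1) = (graph φ).dist (vt h) (vt (of b * t)) + 1) :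
    (of b)⁻¹ * h ∈ side φ := by
  rw [mem_side]
  unfold near
  rw [vt_of]
  omega

theorem in_of_dist {b : B} {h : HNNExtension B A₁ A₂ φ}
    (hb : (graph φ).dist (vt h) (vt 1) = (graph φ).dist (vt h) (vt (of b * t⁻¹)) + 1) :
    t * (of b)⁻¹ * h ∉ side φ := by
  have h1 : t * (of b)⁻¹ * h = (of b * t⁻¹)⁻¹ * h := by group
  rw [h1, not_mem_side]
  unfold near
  rw [inv_mul_cancel_right, vt_of]
  omega

theorem right' (h : HNNExtension B A₁ A₂ φ) (b : B) : h * of b ∈ side φ ↔ h ∈ side φ := by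
  unfold side
  rw [Set.mem_ofPred_eq, Set.mem_ofPred_eq, vt_mul_of]

theorem one' : (1 : HNNExtension B A₁ A₂ φ) ∉ side φ := by
  unfold side
  rw [Set.mem_ofPred_eq, not_not]
  unfold near
  rw [SimpleGraph.dist_self]
  have h1 := adj_vt (φ := φ) 1
  rw [SimpleGraph.dist_eq_one_iff_adj.mpr h1]
  exact Nat.one_pos

theorem t_mem' : (t : HNNExtension B A₁ A₂ φ) ∈ side φ := by
  unfold side
  rw [Set.mem_ofPred_eq]
  unfold near
  rw [one_mul, SimpleGraph.dist_self]
  exact Nat.not_lt_zero _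

theorem left' (b : B) (h : HNNExtension B A₁ A₂ φ) (hb : b ∈ A₂) :
    of b * h ∈ side φ ↔ h ∈ side φ := by
  have h1 : of b * h = (of b⁻¹)⁻¹ * h := by rw [map_inv, inv_inv]
  have h2 : h = (1 : HNNExtension B A₁ A₂ φ)⁻¹ * h := by group
  rw [h1, mem_side]
  conv_rhs => rw [h2, mem_side]
  unfold near
  obtain ⟨y, hy⟩ := (conj_t (φ := φ) b⁻¹).mpr (A₂.inv_mem hb)
  have h3 : of b⁻¹ * t = (1 * t : HNNExtension B A₁ A₂ φ) * of y := by
    rw [← hy]; group
  rw [vt_of, h3, vt_mul_of]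

theorem cover' (h : HNNExtension B A₁ A₂ φ) : (∃ b : B, h = of b) ∨
    (∃ b : B, (of b)⁻¹ * h ∈ side φ) ∨ ∃ b : B, t * (of b)⁻¹ * h ∉ side φ := by
  by_cases h0 : (vt 1 : Vert φ) = vt h
  · obtain ⟨b, hb⟩ := vt_eq_iff.mp h0
    exact Or.inl ⟨b, by rw [← hb, one_mul]⟩
  · right
    obtain ⟨q, q0, qn, hadj, hd, -⟩ := exists_geod (isTree (φ := φ)) (vt 1) (vt h)
    have hpos : 0 < (graph φ).dist (vt 1) (vt h) :=
      (isTree (φ := φ)).connected.pos_dist_of_ne h0
    have h1 := hadj 0 hpos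
    rw [q0, zero_add] at h1
    have h2 := (hd 1 hpos).2
    obtain ⟨x, hx | hx⟩ := adj_vt_one h1
    · left
      refine ⟨x, of_of_dist ?_⟩
      rw [← hx, (graph φ).dist_comm (u := vt h), (graph φ).dist_comm (u := vt h), h2]
      omega
    · right
      refine ⟨x, in_of_dist ?_⟩
      rw [← hx, (graph φ).dist_comm (u := vt h), (graph φ).dist_comm (u := vt h), h2]
      omega

theorem unique_out' (h : HNNExtension B A₁ A₂ φ) (b b' : B) (hb : (of b)⁻¹ * h ∈ side φ)
    (hb' : (of b')⁻¹ * h ∈ side φ) : b⁻¹ * b' ∈ A₂ := by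
  have h1 := parent_unique (isTree (φ := φ)) (adj_out b) (adj_out b') (out_dist hb) (out_dist hb')
  obtain ⟨y, hy⟩ := vt_eq_iff.mp h1
  rw [← conj_t (φ := φ)]
  refine ⟨y, ?_⟩
  rw [map_mul, map_inv]
  calc t⁻¹ * ((of b)⁻¹ * of b') * t = t⁻¹ * (of b)⁻¹ * (of b' * t) := by group
    _ = of y := by rw [← hy]; group

theorem unique_in' (h : HNNExtension B A₁ A₂ φ) (b b' : B) (hb : t * (of b)⁻¹ * h ∉ side φ)
    (hb' : t * (of b')⁻¹ * h ∉ side φ) : b⁻¹ * b' ∈ A₁ := by
  have h1 := parent_unique (isTree (φ := φ)) (adj_in b) (adj_in b') (in_dist hb) (in_dist hb')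
  obtain ⟨y, hy⟩ := vt_eq_iff.mp h1
  rw [← conj_t_inv (φ := φ)]
  refine ⟨y, ?_⟩
  rw [map_mul, map_inv]
  calc t * ((of b)⁻¹ * of b') * t⁻¹ = t * (of b)⁻¹ * (of b' * t⁻¹) := by group
    _ = of y := by rw [← hy]; group

theorem out_in' (h : HNNExtension B A₁ A₂ φ) (b b' : B) (hb : (of b)⁻¹ * h ∈ side φ) :
    ¬ (t * (of b')⁻¹ * h ∉ side φ) := by
  intro hb'
  have h1 := parent_unique (isTree (φ := φ)) (adj_out b) (adj_in b') (out_dist hb) (in_dist hb')
  have h2 := congrArg lvl h1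
  rw [lvl_vt, lvl_vt, map_mul, map_mul, map_inv, expo_of, expo_of, expo_t, one_mul, one_mul,
    ← ofAdd_neg] at h2
  have h3 : (1 : ℤ) = -1 := Multiplicative.ofAdd.injective h2
  omega

open Classical in
/-- Representatives of the vertices of the geodesic from the base vertex to `h`. -/
noncomputable def geo (h : HNNExtension B A₁ A₂ φ) : Finset (HNNExtension B A₁ A₂ φ) :=
  (geo_finite (isTree (φ := φ)) (vt 1) (vt h)).toFinset.image Quotient.out

theorem mem_geo {h : HNNExtension B A₁ A₂ φ} {p : Vert φ}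
    (hp : (graph φ).dist (vt 1) p + (graph φ).dist p (vt h) = (graph φ).dist (vt 1) (vt h)) :
    ∃ w ∈ geo h, vt w = p := by
  classical
  refine ⟨p.out, ?_, Quotient.out_eq p⟩
  unfold geo
  rw [Finset.mem_image]
  exact ⟨p, by rw [Set.Finite.mem_toFinset]; exact hp, rfl⟩

theorem geo_vt {h w : HNNExtension B A₁ A₂ φ} (hw : w ∈ geo h) :
    (graph φ).dist (vt 1) (vt w) + (graph φ).dist (vt w) (vt h) = (graph φ).dist (vt 1) (vt h) := by
  classical
  unfold geo at hw
  rw [Finset.mem_image] at hw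
  obtain ⟨p, hp, rfl⟩ := hw
  rw [Set.Finite.mem_toFinset] at hp
  have : (vt p.out : Vert φ) = p := Quotient.out_eq p
  rw [this]
  exact hp

theorem geo_trans {h w : HNNExtension B A₁ A₂ φ} {p : Vert φ} (hw : w ∈ geo h)
    (hp : (graph φ).dist (vt 1) p + (graph φ).dist p (vt w) = (graph φ).dist (vt 1) (vt w)) :
    (graph φ).dist (vt 1) p + (graph φ).dist p (vt h) = (graph φ).dist (vt 1) (vt h) := by
  have h1 := geo_vt hw
  have h2 := (isTree (φ := φ)).connected.dist_triangle (u := p) (v := vt w) (w := vt h)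
  have h3 := (isTree (φ := φ)).connected.dist_triangle (u := vt 1) (v := p) (w := vt h)
  omega

/-- The vertices on the geodesics from the base vertex to the elements of `E`. -/
theorem hull' (E : Finset (HNNExtension B A₁ A₂ φ)) : ∃ Wf : Finset (HNNExtension B A₁ A₂ φ),
    E ⊆ Wf ∧ (1 : HNNExtension B A₁ A₂ φ) ∈ Wf ∧ ∀ g : HNNExtension B A₁ A₂ φ,
      (∃ w ∈ Wf, g⁻¹ * w ∈ side φ) → (∃ w ∈ Wf, g⁻¹ * w ∉ side φ) →
      (∃ (w : HNNExtension B A₁ A₂ φ) (b : B), w ∈ Wf ∧ g = w * of b) ∧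
      (∃ (w : HNNExtension B A₁ A₂ φ) (b : B), w ∈ Wf ∧ g * t = w * of b) := by
  classical
  let Wf : Finset (HNNExtension B A₁ A₂ φ) := E ∪ {1} ∪ E.biUnion geo
  -- every element of the hull has its geodesic in the hull
  have key : ∀ w ∈ Wf, ∀ p : Vert φ,
      (graph φ).dist (vt 1) p + (graph φ).dist p (vt w) = (graph φ).dist (vt 1) (vt w) →
      ∃ w' ∈ Wf, vt w' = p := by
    intro w hw p hp
    rw [Finset.mem_union, Finset.mem_union, Finset.mem_singleton, Finset.mem_biUnion] at hw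
    rcases hw with (hw | rfl) | ⟨h, hE, hw⟩
    · obtain ⟨w', h1, h2⟩ := mem_geo hp
      exact ⟨w', Finset.mem_union_right _ (Finset.mem_biUnion.mpr ⟨w, hw, h1⟩), h2⟩
    · refine ⟨1, ?_, ?_⟩
      · exact Finset.mem_union_left _ (Finset.mem_union_right _ (Finset.mem_singleton_self _))
      · rw [SimpleGraph.dist_self] at hp
        have : (graph φ).dist (vt 1) p = 0 := by omega
        exact (isTree (φ := φ)).connected.dist_eq_zero_iff.mp this
    · obtain ⟨w', h1, h2⟩ := mem_geo (geo_trans hw hp)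
      exact ⟨w', Finset.mem_union_right _ (Finset.mem_biUnion.mpr ⟨h, hE, h1⟩), h2⟩
  refine ⟨Wf, ?_, ?_, ?_⟩
  · exact fun x hx => Finset.mem_union_left _ (Finset.mem_union_left _ hx)
  · exact Finset.mem_union_left _ (Finset.mem_union_right _ (Finset.mem_singleton_self _))
  · rintro g ⟨w, hw, hg⟩ ⟨w', hw', hg'⟩
    have h1 := not_near (mem_side.mp hg)
    have h1' := near' (not_mem_side.mp hg')
    have main : (∃ w ∈ Wf, vt w = vt g) ∧ ∃ w ∈ Wf, vt w = vt (g * t) := by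
      by_cases h0 : near g (vt 1)
      · have h2 := near' h0
        obtain ⟨h3, h4⟩ := sep_geod (isTree (φ := φ)) (adj_vt g) h2 h1
        exact ⟨key w hw _ h3, key w hw _ h4⟩
      · have h2 := not_near h0
        obtain ⟨h3, h4⟩ := sep_geod (isTree (φ := φ)) (adj_vt g).symm h2 h1'
        exact ⟨key w' hw' _ h4, key w' hw' _ h3⟩
    obtain ⟨⟨v, hv, hvg⟩, v', hv', hvg'⟩ := main
    obtain ⟨b, hb⟩ := vt_eq_iff.mp hvg
    obtain ⟨b', hb'⟩ := vt_eq_iff.mp hvg'
    exact ⟨⟨v, b, hv, hb.symm⟩, v', b', hv', hb'.symm⟩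

end

theorem t_tree : S_TREE := by
  intro B _ A₁ A₂ φ
  exact ⟨side φ,
    { right := right'
      one := one'
      t_mem := t_mem'
      left := left'
      cover := cover'
      unique_out := unique_out'
      unique_in := unique_in'
      out_in := out_in'
      hull := hull' }⟩

end Pool.Agent.Helper36.KZ
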